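import Pool.Agent.H30.VX.Targets

/-!
# MP_d32443_co, rows DIC and COV
-/

set_option autoImplicit false

namespace Pool.Agent.H30.VX

open Finset Pool.Agent.H48.CE Pool.Agent.H30.VR

theorem pf_DIC (hBL2 : T_BL2) (hPCK : T_PCK) : T_DIC := by
  intro ε hε hε1
  obtain ⟨d, hd, hd1, hB⟩ := hBL2 ε hε hε1
  obtain ⟨b, hb1, hb2, hb3⟩ : ∃ b : ℕ, 1 ≤ b ∧ 800 / ε ≤ b ∧ 20 / d ≤ b := by
    refine ⟨⌈800 / ε⌉₊ + ⌈20 / d⌉₊ + 1, by omega, ?_, ?_⟩
    · have := Nat.le_ceil (800 / ε)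
      have h0 : (0 : ℝ) ≤ (⌈20 / d⌉₊ : ℝ) := Nat.cast_nonneg _
      push_cast
      linarith
    · have := Nat.le_ceil (20 / d)
      have h0 : (0 : ℝ) ≤ (⌈800 / ε⌉₊ : ℝ) := Nat.cast_nonneg _
      push_cast
      linarith
  obtain ⟨r, T₀, k₀, γ, hγ, hB⟩ := hB b hb1
  obtain ⟨k₁, hP⟩ := hPCK ε d γ b r T₀ hε hε1 hd hd1 hγ hb1 hb2 hb3
  refine ⟨2 * T₀, max k₀ k₁, ?_⟩
  intro k hk V _ G hV hCon hrun
  by_contra hcon
  push Not at hcon
  refine hrun (hP k ((le_max_right _ _).trans hk) G hCon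
    (hB k ((le_max_left _ _).trans hk) G hrun hV ?_))
  intro w hw hs
  have hk0 : (0 : ℝ) ≤ k := Nat.cast_nonneg _
  refine (hcon w hw (hs.trans ?_)).le
  have : ε / 4 * k ≤ ε * k := mul_le_mul_of_nonneg_right (by linarith) hk0
  linarith

theorem pf_COV (hDIC : T_DIC) (hRND : T_RND) : T_COV := by
  classical
  intro ε hε hε1
  obtain ⟨T, k₀, h⟩ := hDIC (ε / 10) (by linarith) (by linarith)
  refine ⟨T, k₀, ?_⟩
  intro k hk V _ G hV hCon hrun
  obtain ⟨w, hw, hs, hl⟩ := h k hk G hV hCon hrun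
  have hk0 : (0 : ℝ) ≤ k := Nat.cast_nonneg _
  obtain ⟨H, M, hHM, hsz, hcov⟩ := hRND w (ε / 10) ((1 + ε / 10) * k) (by linarith)
    (by linarith) (by positivity) hw hs
  refine ⟨H, M, hHM, hsz.trans ?_, ?_⟩
  · have h1 : (1 + 6 * (ε / 10)) * (1 + ε / 10) ≤ 1 + ε := by nlinarith
    calc (1 + 6 * (ε / 10)) * ((1 + ε / 10) * k) = ((1 + 6 * (ε / 10)) * (1 + ε / 10)) * k := by
          ring
      _ ≤ (1 + ε) * k := mul_le_mul_of_nonneg_right h1 hk0
  · have h1 : (uc G H M : ℝ) ≤ lt G w (1 - ε / 10) := by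
      unfold uc lt
      refine Nat.cast_le.2 (card_le_card ?_)
      intro p hp
      rw [mem_filter] at hp ⊢
      refine ⟨hp.1, hp.2.1, ?_⟩
      by_contra hcon
      push Not at hcon
      rcases hcov p.1 p.2 hcon with h2 | h2 | h2
      · exact hp.2.2.1 h2
      · exact hp.2.2.2.1 h2
      · exact hp.2.2.2.2 h2
    refine h1.trans (hl.trans ?_)
    have hV0 : (0 : ℝ) ≤ Fintype.card V := Nat.cast_nonneg _
    have h2 : ε / 10 * k * Fintype.card V = ε / 10 * (k * Fintype.card V) := by ring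
    have h3 : ε * k * Fintype.card V = ε * (k * Fintype.card V) := by ring
    rw [h2, h3]
    exact mul_le_mul_of_nonneg_right (by linarith) (by positivity)

end Pool.Agent.H30.VX
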