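import Pool.Agent.H30.VX.Targets

/-!
# Row FFA: steps of the extremal number
-/

set_option autoImplicit false

open Finset Pool.Agent.H48.CE Pool.Agent.H30.VR

namespace Pool.Agent.H30.VX

theorem ffa_aux {k q r : ℕ} (hr : r < 2 * k) :
    ff k (2 * k * q + r + 1) = q * (2 * k * (2 * k + 1)) + r * (r + 1) := by
  have hk : 0 < 2 * k := by omega
  have h1 : (2 * k * q + r + 1 - 1) / (2 * k) = q := by
    rw [Nat.add_sub_cancel, Nat.add_comm, Nat.add_mul_div_left _ _ hk, Nat.div_eq_of_lt hr,
      Nat.zero_add]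
  have h2 : (2 * k * q + r + 1 - 1) % (2 * k) = r := by
    rw [Nat.add_sub_cancel, Nat.mul_add_mod, Nat.mod_eq_of_lt hr]
  unfold ff rr
  rw [h1, h2]

theorem pf_FFA : T_FFA := by
  intro k m hk hm
  have hk2 : 0 < 2 * k := by omega
  obtain ⟨q, r, hr, hm'⟩ : ∃ q r : ℕ, r < 2 * k ∧ m = 2 * k * q + r + 1 := by
    refine ⟨(m - 1) / (2 * k), (m - 1) % (2 * k), Nat.mod_lt _ hk2, ?_⟩
    have := Nat.div_add_mod (m - 1) (2 * k)
    omega
  subst hm'
  have e0 := ffa_aux (k := k) (q := q) hr
  have e2 : ff k (2 * k * q + r + 1 + 2 * k) =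
      (q + 1) * (2 * k * (2 * k + 1)) + r * (r + 1) := by
    have := ffa_aux (k := k) (q := q + 1) hr
    rw [← this]
    congr 1
    ring
  rw [e0]
  refine ⟨?_, ?_, ?_⟩
  · rcases Nat.lt_or_ge (r + 1) (2 * k) with h | h
    · have e1 := ffa_aux (k := k) (q := q) h
      have e1' : ff k (2 * k * q + r + 1 + 1) = q * (2 * k * (2 * k + 1)) + (r + 1) * (r + 1 + 1) :=
        e1
      rw [e1']
      nlinarith
    · have hr' : r = 2 * k - 1 := by omega
      have e1 := ffa_aux (k := k) (q := q + 1) (r := 0) hk2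
      have e1' : ff k (2 * k * q + r + 1 + 1) = (q + 1) * (2 * k * (2 * k + 1)) + 0 * (0 + 1) := by
        rw [← e1]
        congr 1
        have : r + 1 = 2 * k := by omega
        have h3 : 2 * k * (q + 1) = 2 * k * q + 2 * k := by ring
        omega
      rw [e1']
      obtain ⟨j, rfl⟩ : ∃ j, k = j + 1 := ⟨k - 1, by omega⟩
      have : r = 2 * j + 1 := by omega
      subst this
      nlinarith
  · rcases Nat.lt_or_ge (r + 1) (2 * k) with h | h
    · have e1 := ffa_aux (k := k) (q := q) h
      have e1' : ff k (2 * k * q + r + 1 + 1) = q * (2 * k * (2 * k + 1)) + (r + 1) * (r + 1 + 1) :=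
        e1
      rw [e1']
      nlinarith
    · have hr' : r = 2 * k - 1 := by omega
      have e1 := ffa_aux (k := k) (q := q + 1) (r := 0) hk2
      have e1' : ff k (2 * k * q + r + 1 + 1) = (q + 1) * (2 * k * (2 * k + 1)) + 0 * (0 + 1) := by
        rw [← e1]
        congr 1
        have : r + 1 = 2 * k := by omega
        have h3 : 2 * k * (q + 1) = 2 * k * q + 2 * k := by ring
        omega
      rw [e1']
      obtain ⟨j, rfl⟩ : ∃ j, k = j + 1 := ⟨k - 1, by omega⟩
      have : r = 2 * j + 1 := by omega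
      subst this
      nlinarith
  · rw [e2]
    ring

end Pool.Agent.H30.VX
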