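import Pool.Agent.H30.VX.Targets
import Pool.Agent.H30.VR.Asm

/-!
# MP_d32443_co, row FIN
-/

set_option autoImplicit false

namespace Pool.Agent.H30.VX

open Finset Pool.Agent.H48.CE Pool.Agent.H30.VR

theorem pf_FIN (hCOR : T_COR) (hRED : T_RED) : T_FIN := by
  obtain ⟨k₀, h⟩ := hCOR
  refine ⟨max k₀ 1, ?_⟩
  intro k hk n G hn hrun
  have h1 := hRED k ((le_max_right _ _).trans hk)
    (fun {V} _ G h1 h2 h3 h4 => h k ((le_max_left _ _).trans hk) G h1 h2 h3 h4) G hrun univ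
    ⟨⟨0, by omega⟩, mem_univ _⟩
  rw [ee_univ, card_univ, Fintype.card_fin] at h1
  exact h1

end Pool.Agent.H30.VX
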