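import Pool.Agent.H30.VX.Targets

/-!
# MP_d32443_co, row TWL: two leaves
-/

set_option autoImplicit false

namespace Pool.Agent.H30.VX

open Finset Pool.Agent.H48.CE Pool.Agent.H30.VR

theorem Sp.symm {V : Type} {G : SimpleGraph V} {j : ℕ} {P Q : Finset V} (h : Sp G j P Q) :
    Sp G j Q P := by
  classical
  obtain ⟨h1, h2, h3⟩ := h
  refine ⟨fun x => (h1 x).symm, fun x hx hx' y hy hy' hadj => h2 y hy hy' x hx hx' hadj.symm, ?_⟩
  refine le_trans (card_le_card ?_) h3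
  intro x hx
  rw [mem_filter] at hx ⊢
  exact ⟨hx.2, hx.1⟩

theorem sides {V : Type} [Fintype V] {G : SimpleGraph V} {c : ℕ} {X Y : Finset V}
    (hc : 16 ≤ c) (hs : Sp G 2 X Y) {Z : Finset V} (hZ : Ob G c Z) (hL : Lv Z Y) :
    ∃ v, v ∉ X := by
  classical
  by_contra hcon
  push Not at hcon
  obtain ⟨_, _, h3⟩ := hs
  have h4 := hZ.1
  unfold Lv at hL
  have h5 : Z.card ≤ (Z.filter (fun v => v ∉ Y)).card + (X.filter (fun v => v ∈ Y)).card := by
    rw [← card_filter_add_card_filter_not (s := Z) (fun v => v ∉ Y)]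
    refine Nat.add_le_add_left (card_le_card ?_) _
    intro v hv
    rw [mem_filter, not_not] at hv
    rw [mem_filter]
    exact ⟨hcon v, hv.2⟩
  have h6 : (Z.filter (fun v => v ∉ Y)).card = (Z.filter (fun v => v ∉ Y)).card := rfl
  have h7 : 4 * (Z.filter (fun v => v ∉ Y)).card < Z.card := by
    exact_mod_cast hL
  have h8 : (X.filter (fun v => v ∈ Y)).card ≤ 2 := by
    exact_mod_cast h3
  omega

theorem middle {V : Type} [Fintype V] {G : SimpleGraph V} {c : ℕ} {X Y : Finset V}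
    (hCon : Con G 1) (hc : 16 ≤ c) (hs : Sp G 2 X Y) {Z Z' : Finset V} (hZ : Ob G c Z)
    (hL : Lv Z X) (hZ' : Ob G c Z') (hL' : Lv Z' Y) :
    (by classical exact (X.filter (fun v => v ∈ Y)).card = 2) := by
  classical
  obtain ⟨v, hv⟩ := sides hc hs hZ' hL'
  obtain ⟨w, hw⟩ := sides hc hs.symm hZ hL
  obtain ⟨h1, h2, h3⟩ := hs
  rcases hCon X Y h1 h2 with h | h | ⟨S, hS, hT⟩
  · exact absurd (h v) hv
  · exact absurd (h w) hw
  · have h4 : S = X.filter (fun v => v ∈ Y) := by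
      ext x
      rw [hS, mem_filter]
    rw [h4] at hT
    exact le_antisymm (by exact_mod_cast h3) (by omega)

theorem big {V : Type} {G : SimpleGraph V} {c : ℕ} {X Z : Finset V} (hZ : Ob G c Z)
    (hL : Lv Z X) : 3 * c ≤ 4 * X.card := by
  classical
  have h1 := hZ.1
  have h7 : 4 * (Z.filter (fun v => v ∉ X)).card < Z.card := by
    unfold Lv at hL
    exact_mod_cast hL
  have h5 : Z.card ≤ (Z.filter (fun v => v ∉ X)).card + X.card := by
    rw [← card_filter_add_card_filter_not (s := Z) (fun v => v ∉ X)]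
    refine Nat.add_le_add_left (card_le_card ?_) _
    intro v hv
    rw [mem_filter, not_not] at hv
    exact hv.2
  omega

theorem pf_TWL (hLFX : T_LFX) : T_TWL := by
  classical
  intro V _ G c P Q hCon hc hPQ hP hQ
  obtain ⟨X₁, Y₁, hs1, _, ⟨Z₁, hZ1, hL1⟩, ⟨Z₁', hZ1', hL1'⟩, hleaf1⟩ :=
    hLFX G c univ P Q hCon hc hPQ (subset_univ _) hP hQ
  obtain ⟨X₂, Y₂, hs2, hX2, ⟨Z₂, hZ2, hL2⟩, ⟨Z₂', hZ2', hL2'⟩, hleaf2⟩ :=
    hLFX G c Y₁ Y₁ X₁ hCon hc hs1.symm (Subset.refl _) ⟨Z₁', hZ1', hL1'⟩ ⟨Z₁, hZ1, hL1⟩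
  have m1 := middle hCon hc hs1 hZ1 hL1 hZ1' hL1'
  have m2 := middle hCon hc hs2 hZ2 hL2 hZ2' hL2'
  exact ⟨X₁, Y₁, X₂, Y₂, hs1, hs2, hX2, hleaf1, hleaf2, by exact_mod_cast m1,
    by exact_mod_cast m2, sides hc hs1 hZ1' hL1', sides hc hs2 hZ2' hL2', big hZ1 hL1, big hZ2 hL2⟩

end Pool.Agent.H30.VX
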