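import Pool.Agent.H30.VX.Defs

/-!
# MP_d32443_co, large `k`: basic lemmas
-/

set_option autoImplicit false

namespace Pool.Agent.H30.VX

open Finset Pool.Agent.H48.CE Pool.Agent.H30.VR

variable {V : Type} {G : SimpleGraph V}

/-! ### common neighbours -/

theorem mem_cn {B : Finset V} {u v w : V} : w ∈ cn G B u v ↔ w ∈ B ∧ G.Adj u w ∧ G.Adj v w := by
  unfold cn
  rw [mem_nb, mem_nb]
  tauto

theorem ee_self (S : Finset V) : ee G S S = D G S := rfl

/-! ### runs -/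

/-- `k` consecutive even cycle lengths -/
theorem hasRun_of_cy {k l : ℕ} (h : ∀ i < k, Cy G (2 * l + 2 * i)) : HasRun k G := ⟨l, h⟩

/-- cycles of all lengths in an interval with `2 * k` elements -/
theorem hasRun_of_interval {k x : ℕ} (h : ∀ N, x ≤ N → N < x + 2 * k → Cy G N) : HasRun k G := by
  rcases Nat.even_or_odd' x with ⟨c, hc | hc⟩
  · exact ⟨c, fun i hi => h _ (by omega) (by omega)⟩
  · exact ⟨c + 1, fun i hi => h _ (by omega) (by omega)⟩

/-- cycles of all even lengths `base + 2 * s` with at least `k` values of `s` -/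
theorem hasRun_of_even {k b a : ℕ} (hb : Even b) (h : ∀ s, a ≤ s → s < a + k → Cy G (b + 2 * s)) :
    HasRun k G := by
  obtain ⟨c, hc⟩ := hb
  refine ⟨c + a, fun i hi => ?_⟩
  have h1 := h (a + i) (by omega) (by omega)
  have h2 : b + 2 * (a + i) = 2 * (c + a) + 2 * i := by omega
  rw [h2] at h1
  exact h1

/-! ### shortest systems -/

theorem exists_mps {ι : Type} [Fintype ι] {a : ι → V} {Y : Finset V}
    (h : ∃ Q, PS G a Y Q) : ∃ Q, MPS G a Y Q := by
  classical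
  have h1 : ∃ n, ∃ Q, PS G a Y Q ∧ tl Q = n := by
    obtain ⟨Q, hQ⟩ := h
    exact ⟨_, Q, hQ, rfl⟩
  obtain ⟨Q, hQ, hn⟩ := Nat.find_spec h1
  refine ⟨Q, hQ, fun Q' hQ' => ?_⟩
  rw [hn]
  exact Nat.find_min' h1 ⟨Q', hQ', rfl⟩

/-! ### the induced subgraph as a graph on a type -/

/-- The image in `V` of a set of vertices of `rs G S`. -/
noncomputable def up {S : Finset V} (A : Finset {x // x ∈ S}) : Finset V :=
  A.map (Function.Embedding.subtype _)

theorem mem_up {S : Finset V} {A : Finset {x // x ∈ S}} {x : V} :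
    x ∈ up A ↔ ∃ h : x ∈ S, (⟨x, h⟩ : {x // x ∈ S}) ∈ A := by
  unfold up
  rw [Finset.mem_map]
  constructor
  · rintro ⟨⟨y, hy⟩, hyA, rfl⟩
    exact ⟨hy, hyA⟩
  · rintro ⟨h, hA⟩
    exact ⟨⟨x, h⟩, hA, rfl⟩

theorem mem_up_coe {S : Finset V} {A : Finset {x // x ∈ S}} {x : {x // x ∈ S}} :
    (x : V) ∈ up A ↔ x ∈ A := by
  rw [mem_up]
  exact ⟨fun ⟨_, h⟩ => h, fun h => ⟨x.2, h⟩⟩

theorem card_up {S : Finset V} (A : Finset {x // x ∈ S}) : (up A).card = A.card :=
  Finset.card_map _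

theorem up_subset {S : Finset V} (A : Finset {x // x ∈ S}) : up A ⊆ S := by
  intro x hx
  exact (mem_up.1 hx).1

theorem up_univ (S : Finset V) : up (univ : Finset {x // x ∈ S}) = S := by
  ext x
  rw [mem_up]
  exact ⟨fun ⟨h, _⟩ => h, fun h => ⟨h, mem_univ _⟩⟩

theorem nb_up {S : Finset V} (A : Finset {x // x ∈ S}) (v : {x // x ∈ S}) :
    nb G (up A) v = up (nb (rs G S) A v) := by
  ext x
  rw [mem_nb, mem_up, mem_up]
  constructor
  · rintro ⟨⟨h, hA⟩, hadj⟩
    exact ⟨h, mem_nb.2 ⟨hA, hadj⟩⟩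
  · rintro ⟨h, hA⟩
    rw [mem_nb] at hA
    exact ⟨⟨h, hA.1⟩, hA.2⟩

theorem card_nb_up {S : Finset V} (A : Finset {x // x ∈ S}) (v : {x // x ∈ S}) :
    (nb G (up A) v).card = (nb (rs G S) A v).card := by
  rw [nb_up, card_up]

theorem ee_up {S : Finset V} (A B : Finset {x // x ∈ S}) :
    ee G (up A) (up B) = ee (rs G S) A B := by
  unfold ee
  rw [show up A = A.map (Function.Embedding.subtype _) from rfl, sum_map]
  refine sum_congr rfl fun a _ => ?_
  exact card_nb_up B a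

theorem ee_rs_univ (S : Finset V) : ee (rs G S) univ univ = ee G S S := by
  rw [← ee_up, up_univ]

theorem card_rs (S : Finset V) : Fintype.card {x // x ∈ S} = S.card := Fintype.card_coe S

theorem rs_hasRun {S : Finset V} {k : ℕ} (h : HasRun k (rs G S)) : HasRun k G := by
  obtain ⟨l, hl⟩ := h
  refine ⟨l, fun i hi => ?_⟩
  obtain ⟨v, c, hc, hlen⟩ := hl i hi
  let f : rs G S →g G := ⟨Subtype.val, fun h => h⟩
  have hf : Function.Injective f := Subtype.val_injective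
  exact ⟨f v, c.map f, hc.map hf, by rw [SimpleGraph.Walk.length_map, hlen]⟩

theorem con_rs {S : Finset V} {T : ℕ} (hW : ConS G T S) : Con (rs G S) T := by
  classical
  intro A' B' hcov hsep
  have h := hW (up A') (up B')
    (by
      intro x
      rw [mem_up, mem_up]
      constructor
      · rintro (⟨h, _⟩ | ⟨h, _⟩) <;> exact h
      · intro h
        rcases hcov ⟨x, h⟩ with h1 | h1
        · exact Or.inl ⟨h, h1⟩
        · exact Or.inr ⟨h, h1⟩)
    (by
      intro x hx hx' y hy hy' hadj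
      rw [mem_up] at hx hx' hy hy'
      obtain ⟨hxW, hxA⟩ := hx
      obtain ⟨hyW, hyB⟩ := hy
      exact hsep ⟨x, hxW⟩ hxA (fun h => hx' ⟨hxW, h⟩) ⟨y, hyW⟩ hyB (fun h => hy' ⟨hyW, h⟩) hadj)
  rcases h with h | h | ⟨R, hR, hT⟩
  · left
    intro x
    rw [← mem_up_coe, h]
    exact x.2
  · right; left
    intro x
    rw [← mem_up_coe, h]
    exact x.2
  · right; right
    refine ⟨univ.filter fun x : {x // x ∈ S} => (x : V) ∈ R, ?_, ?_⟩
    · intro x
      rw [mem_filter, hR, mem_up_coe, mem_up_coe]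
      exact ⟨fun h => h.2, fun h => ⟨mem_univ _, h⟩⟩
    · refine lt_of_lt_of_le hT (Finset.card_le_card_of_surjOn (fun x => x.1) ?_)
      intro y hy
      have h1 := ((hR y).1 hy).1
      rw [mem_up] at h1
      obtain ⟨hyW, _⟩ := h1
      exact ⟨⟨y, hyW⟩, mem_coe.2 (mem_filter.2 ⟨mem_univ _, hy⟩), rfl⟩

theorem bd_rs {S : Finset V} {k : ℕ} (h : ∀ R : Finset V, R ⊆ S → R.Nonempty → R ≠ S →
    ee G R R ≤ ff k R.card) : Bd (rs G S) k := by
  intro R hR ⟨v, hv⟩
  rw [← ee_up, ← card_up]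
  refine h (up R) (up_subset R) ?_ ?_
  · obtain ⟨x, hx⟩ := hR
    exact ⟨x.1, mem_up_coe.2 hx⟩
  · intro heq
    apply hv
    rw [← mem_up_coe, heq]
    exact v.2

theorem c1_up {S : Finset V} {ε : ℝ} {k : ℕ} {H B : Finset {x // x ∈ S}}
    (h : C1 (rs G S) ε k H B) : C1 G ε k (up H) (up B) := by
  obtain ⟨h1, h2, h3, h4⟩ := h
  refine ⟨?_, by rw [card_up]; exact h2, by rw [card_up]; exact h3, ?_⟩
  · intro v hv hv'
    rw [mem_up] at hv hv'
    obtain ⟨hS, hv⟩ := hv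
    obtain ⟨_, hv'⟩ := hv'
    exact h1 _ hv hv'
  · intro v hv
    rw [mem_up] at hv
    obtain ⟨hS, hv⟩ := hv
    have h5 := h4 _ hv
    rw [card_up, show v = ((⟨v, hS⟩ : {x // x ∈ S}) : V) from rfl, card_nb_up]
    exact h5

theorem c2_up {S : Finset V} {ε : ℝ} {k : ℕ} {W : Finset {x // x ∈ S}}
    (h : C2 (rs G S) ε k W) : C2 G ε k (up W) := by
  obtain ⟨h1, h2⟩ := h
  refine ⟨by rw [card_up]; exact h1, ?_⟩
  intro v hv
  rw [mem_up] at hv
  obtain ⟨hS, hv⟩ := hv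
  have h5 := h2 _ hv
  rw [card_up, show v = ((⟨v, hS⟩ : {x // x ∈ S}) : V) from rfl, card_nb_up]
  exact h5

theorem C1.mono {ε ε' : ℝ} {k : ℕ} {H B : Finset V} (h : C1 G ε k H B) (hε : ε ≤ ε') :
    C1 G ε' k H B := by
  obtain ⟨h1, h2, h3, h4⟩ := h
  have hk : (0 : ℝ) ≤ k := Nat.cast_nonneg _
  have hB : (0 : ℝ) ≤ B.card := Nat.cast_nonneg _
  refine ⟨h1, ?_, h3, fun v hv => ?_⟩
  · have := mul_le_mul_of_nonneg_right (by linarith : 1 - ε' ≤ 1 - ε) hk
    linarith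
  · have := mul_le_mul_of_nonneg_right (by linarith : 1 - ε' ≤ 1 - ε) hB
    have := h4 v hv
    linarith

theorem C2.mono {ε ε' : ℝ} {k : ℕ} {W : Finset V} (h : C2 G ε k W) (hε : ε ≤ ε') :
    C2 G ε' k W := by
  obtain ⟨h1, h2⟩ := h
  have hk : (0 : ℝ) ≤ k := Nat.cast_nonneg _
  refine ⟨?_, fun v hv => ?_⟩
  · have := mul_le_mul_of_nonneg_right (by linarith : 2 - ε' ≤ 2 - ε) hk
    linarith
  · have := mul_le_mul_of_nonneg_right hε hk
    have := h2 v hv
    linarith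

theorem NC.sub {μ : ℕ} {W U : Finset V} (h : NC G μ W) (hU : U ⊆ W) : NC G μ U := by
  classical
  intro w hw
  have h1 := h w (hU hw)
  have h2 : W.card = U.card + (W \ U).card := by
    rw [← card_sdiff_add_card_eq_card hU]
    omega
  have h3 : (nb G W w).card ≤ (nb G U w).card + (W \ U).card := by
    rw [← card_union_of_disjoint]
    · apply card_le_card
      intro x hx
      rw [mem_nb] at hx
      rw [mem_union, mem_nb, mem_sdiff]
      by_cases hxU : x ∈ U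
      · exact Or.inl ⟨hxU, hx.2⟩
      · exact Or.inr ⟨hx.1, hxU⟩
    · rw [disjoint_left]
      intro x hx hx'
      rw [mem_nb] at hx
      rw [mem_sdiff] at hx'
      exact hx'.2 hx.1
  omega

end Pool.Agent.H30.VX
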