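import Pool.Agent.H30.VR.All
import Pool.Agent.H30.VX.FFA
import Pool.Agent.H19.VX.FF
import Pool.Agent.H4.VX.GRD
import Pool.Agent.H4.VX.NCP
import Pool.Agent.H34.VX.NCC
import Pool.Agent.H67.VX.NCS
import Pool.Agent.H35.VX.EXT
import Pool.Agent.H67.VX.EAR
import Pool.Agent.H63.VX.T2A
import Pool.Agent.H67.VX.T2B
import Pool.Agent.H11.VX.T2C
import Pool.Agent.H74.VX.T2D
import Pool.Agent.H72.VX.T2E
import Pool.Agent.H1.VX.GPR
import Pool.Agent.H67.VX.MNL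
import Pool.Agent.H45.VX.MN2
import Pool.Agent.H67.VX.CMB
import Pool.Agent.H94.VX.L2
import Pool.Agent.H1.VX.TH2
import Pool.Agent.H23.VX.OBP
import Pool.Agent.H45.VX.L3B
import Pool.Agent.H45.VX.L3C
import Pool.Agent.H99.VX.ALT
import Pool.Agent.H17.VX.L3D
import Pool.Agent.H20.VX.L3
import Pool.Agent.H10.VX.SEG
import Pool.Agent.H23.VX.HK
import Pool.Agent.H20.VX.EXC
import Pool.Agent.H36.VX.VCM
import Pool.Agent.H84.VX.HBC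
import Pool.Agent.H10.VX.HUB
import Pool.Agent.H45.VX.OBH
import Pool.Agent.H7.VX.LFX
import Pool.Agent.H30.VX.TWL
import Pool.Agent.H84.VX.LVC
import Pool.Agent.H99.VX.WG2
import Pool.Agent.H84.VX.ST2
import Pool.Agent.H23.VX.BL2
import Pool.Agent.H1.VX.PCK
import Pool.Agent.H30.VX.DIC
import Pool.Agent.H17.VX.RND
import Pool.Agent.H48.VX.QUA
import Pool.Agent.H84.VX.CT1
import Pool.Agent.H23.VX.CT2
import Pool.Agent.H48.VX.SHP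
import Pool.Agent.H48.VX.REC
import Pool.Agent.H13.VX.MDU
import Pool.Agent.H48.VX.STB
import Pool.Agent.H39.VX.COR
import Pool.Agent.H17.VX.TCC
import Pool.Agent.H12.VX.RED
import Pool.Agent.H30.VX.FIN

/-!
# MP_d32443_co, large `k`: all rows of the board vex_modules
-/

set_option autoImplicit false

namespace Pool.Agent.H30.VX.All

open Pool.Agent.H30.VX

theorem aFFA : T_FFA := Pool.Agent.H30.VX.pf_FFA

theorem aFFB : T_FFB := Pool.Agent.H19.VX.pf_FFB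

theorem aFFC : T_FFC := Pool.Agent.H19.VX.pf_FFC

theorem aFFD : T_FFD := Pool.Agent.H19.VX.pf_FFD aFFB

theorem aGRD : T_GRD := Pool.Agent.H4.VX.pf_GRD

theorem aNCP : T_NCP := Pool.Agent.H4.VX.pf_NCP

theorem aNCC : T_NCC := Pool.Agent.H34.VX.pf_NCC aNCP

theorem aNCS : T_NCS := Pool.Agent.H67.VX.pf_NCS aNCP aGRD Pool.Agent.H79.VR.pf_CAT

theorem aEXT : T_EXT := Pool.Agent.H35.VX.pf_EXT aNCC aNCS aGRD

theorem aEAR : T_EAR := Pool.Agent.H67.VX.pf_EAR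

theorem aT2A : T_T2A := Pool.Agent.H63.VX.pf_T2A aNCC aEXT

theorem aT2B : T_T2B := Pool.Agent.H67.VX.pf_T2B aFFA aFFD

theorem aT2C : T_T2C := Pool.Agent.H11.VX.pf_T2C aEAR aEXT

theorem aT2D : T_T2D := Pool.Agent.H74.VX.pf_T2D aFFA aFFB

theorem aT2E : T_T2E := Pool.Agent.H72.VX.pf_T2E aGRD aEXT

theorem aGPR : T_GPR := Pool.Agent.H1.VX.pf_GPR Pool.Agent.H76.VR.pf_HLF Pool.Agent.H30.VR.All.aDEN Pool.Agent.H30.VR.All.aINC

theorem aMNL : T_MNL := Pool.Agent.H67.VX.pf_MNL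

theorem aMN2 : T_MN2 := Pool.Agent.H45.VX.pf_MN2

theorem aCMB : T_CMB := Pool.Agent.H67.VX.pf_CMB

theorem aL2 : T_L2 := Pool.Agent.H94.VX.pf_L2 Pool.Agent.H13.VR.pf_MNG aMN2 aCMB Pool.Agent.H30.VR.All.aFEW Pool.Agent.H30.VR.All.aFLX aNCP

theorem aTH2 : T_TH2 := Pool.Agent.H1.VX.pf_TH2 aGPR aL2 aT2A aT2B aT2C aT2D aT2E

theorem aOBP : T_OBP := Pool.Agent.H23.VX.pf_OBP

theorem aL3B : T_L3B := Pool.Agent.H45.VX.pf_L3B aMN2 Pool.Agent.H63.VR.pf_CUT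

theorem aL3C : T_L3C := Pool.Agent.H45.VX.pf_L3C

theorem aALT : T_ALT := Pool.Agent.H99.VX.pf_ALT

theorem aL3D : T_L3D := Pool.Agent.H17.VX.pf_L3D aALT

theorem aL3 : T_L3 := Pool.Agent.H20.VX.pf_L3 aMNL aMN2 aCMB Pool.Agent.H30.VR.All.aFEW Pool.Agent.H30.VR.All.aFLX aOBP aL3B aL3C aL3D

theorem aSEG : T_SEG := Pool.Agent.H10.VX.pf_SEG Pool.Agent.H79.VR.pf_CAT aGRD

theorem aHK : T_HK := Pool.Agent.H23.VX.pf_HK aSEG

theorem aEXC : T_EXC := Pool.Agent.H20.VX.pf_EXC aSEG aGRD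

theorem aVCM : T_VCM := Pool.Agent.H36.VX.pf_VCM

theorem aHBC : T_HBC := Pool.Agent.H84.VX.pf_HBC aFFB

theorem aHUB : T_HUB := Pool.Agent.H10.VX.pf_HUB aHK aEXC aVCM aHBC

theorem aOBH : T_OBH := Pool.Agent.H45.VX.pf_OBH

theorem aLFX : T_LFX := Pool.Agent.H7.VX.pf_LFX

theorem aTWL : T_TWL := Pool.Agent.H30.VX.pf_TWL aLFX

theorem aLVC : T_LVC := Pool.Agent.H84.VX.pf_LVC aFFA aFFC

theorem aWG2 : T_WG2 := Pool.Agent.H99.VX.pf_WG2 Pool.Agent.H76.VR.pf_HLF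

theorem aST2 : T_ST2 := Pool.Agent.H84.VX.pf_ST2 aWG2 Pool.Agent.H30.VR.All.aDEN Pool.Agent.H30.VR.All.aINC

theorem aBL2 : T_BL2 := Pool.Agent.H23.VX.pf_BL2 aST2 Pool.Agent.H84.VR.pf_MWS Pool.Agent.H76.VR.pf_SPL

theorem aPCK : T_PCK := Pool.Agent.H1.VX.pf_PCK Pool.Agent.H30.VR.All.aLNK Pool.Agent.H76.VR.pf_CNT

theorem aDIC : T_DIC := Pool.Agent.H30.VX.pf_DIC aBL2 aPCK

theorem aRND : T_RND := Pool.Agent.H17.VX.pf_RND

theorem aCOV : T_COV := Pool.Agent.H30.VX.pf_COV aDIC aRND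

theorem aQUA : T_QUA := Pool.Agent.H48.VX.pf_QUA aFFB aFFA

theorem aCT1 : T_CT1 := Pool.Agent.H84.VX.pf_CT1 aFFB

theorem aCT2 : T_CT2 := Pool.Agent.H23.VX.pf_CT2 aFFA aFFB

theorem aSHP : T_SHP := Pool.Agent.H48.VX.pf_SHP aCOV aQUA aCT1 aCT2

theorem aREC : T_REC := Pool.Agent.H48.VX.pf_REC aFFA aFFB aFFC

theorem aMDU : T_MDU := Pool.Agent.H13.VX.pf_MDU Pool.Agent.H36.VR.pf_MAD aFFB

theorem aSTB : T_STB := Pool.Agent.H48.VX.pf_STB aSHP aCT2 aREC aMDU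

theorem aCOR : T_COR := Pool.Agent.H39.VX.pf_COR aTH2 aSTB aHUB aGPR aL3 aOBH aOBP aTWL aLVC

theorem aTCC : T_TCC := Pool.Agent.H17.VX.pf_TCC

theorem aRED : T_RED := Pool.Agent.H12.VX.pf_RED aTCC aFFA aFFB aFFC

theorem aFIN : T_FIN := Pool.Agent.H30.VX.pf_FIN aCOR aRED

theorem fin : T_FIN := aFIN

theorem ffb : T_FFB := aFFB

end Pool.Agent.H30.VX.All
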