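import Pool.Agent.H30.VR.Basic

/-!
# MP_d32443_co: the conjecture on consecutive even cycle lengths for large `k` (definitions)

`HasRun k G`, `nb G S v` are those of `Pool.Agent.H48.CE.Defs`; `ee`, `LR`, `Pt`, `Cy`, `Con`,
`PS`, `MPS` those of `Pool.Agent.H30.VR.Defs`. `ee G S S` is twice the number of edges inside `S`.
-/

set_option autoImplicit false

namespace Pool.Agent.H30.VX

open Finset Pool.Agent.H48.CE Pool.Agent.H30.VR

/-- The remainder `r` of `m - 1` modulo `2 * k`. -/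
def rr (k m : ℕ) : ℕ := (m - 1) % (2 * k)

/-- Twice the extremal number: `ff k (2 * k * q + r + 1) = q * (2 * k * (2 * k + 1)) + r * (r + 1)`
for `r < 2 * k`. -/
def ff (k m : ℕ) : ℕ := ((m - 1) / (2 * k)) * (2 * k * (2 * k + 1)) + rr k m * (rr k m + 1)

/-- The induced subgraph on `S` as a graph on a type. -/
def rs {V : Type} (G : SimpleGraph V) (S : Finset V) : SimpleGraph {x // x ∈ S} :=
  G.comap Subtype.val

/-- Every vertex of `W` has at most `μ` non-neighbours in `W` (itself included). -/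
def NC {V : Type} (G : SimpleGraph V) (μ : ℕ) (W : Finset V) : Prop :=
  ∀ w ∈ W, W.card ≤ (nb G W w).card + μ

/-- A core of type II. -/
def C2 {V : Type} (G : SimpleGraph V) (ε : ℝ) (k : ℕ) (W : Finset V) : Prop :=
  (2 - ε) * k ≤ W.card ∧ ∀ w ∈ W, (W.card : ℝ) ≤ (nb G W w).card + ε * k

/-- A core of type I. -/
def C1 {V : Type} (G : SimpleGraph V) (ε : ℝ) (k : ℕ) (H B : Finset V) : Prop :=
  (∀ v ∈ H, v ∉ B) ∧ (1 - ε) * k ≤ H.card ∧ (7 / 5 : ℝ) * k ≤ B.card ∧
    ∀ h ∈ H, (1 - ε) * B.card ≤ ((nb G B h).card : ℝ)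

/-- The common neighbours of `u` and `v` in `B`. -/
noncomputable def cn {V : Type} (G : SimpleGraph V) (B : Finset V) (u v : V) : Finset V :=
  nb G (nb G B u) v

/-- A lower regular pair with the parameters `d`, `r`, `t`. -/
structure LP {V : Type} (G : SimpleGraph V) (d : ℝ) (r t : ℕ) (A B : Finset V) : Prop where
  dis : ∀ v ∈ A, v ∉ B
  ca : A.card = r * t
  cb : B.card = r * t
  lr : LR G d t A B

open scoped Classical in
/-- A separation of order at most `j`. -/
def Sp {V : Type} (G : SimpleGraph V) (j : ℕ) (P Q : Finset V) : Prop :=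
  (∀ x, x ∈ P ∨ x ∈ Q) ∧ (∀ x ∈ P, x ∉ Q → ∀ y ∈ Q, y ∉ P → ¬ G.Adj x y) ∧
    (P.filter (fun x => x ∈ Q)).card ≤ j

open scoped Classical in
/-- `Z` lives in `P`. -/
def Lv {V : Type} (Z P : Finset V) : Prop := 4 * (Z.filter (fun v => v ∉ P)).card < Z.card

/-- `Z` is an object: it lives in one of the sides of every separation of order at most 2. -/
def Ob {V : Type} (G : SimpleGraph V) (c : ℕ) (Z : Finset V) : Prop :=
  c ≤ Z.card ∧ ∀ P Q : Finset V, Sp G 2 P Q → Lv Z P ∨ Lv Z Q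

/-- No separation of order at most 2 separates two objects which live in `X`. -/
def Leaf {V : Type} (G : SimpleGraph V) (c : ℕ) (X : Finset V) : Prop :=
  ∀ Z Z' : Finset V, Ob G c Z → Ob G c Z' → Lv Z X → Lv Z' X →
    ∀ P Q : Finset V, Sp G 2 P Q → Lv Z P → ¬ Lv Z' Q

/-- Every separation of the subgraph on `W` with two proper sides has order more than `T`. -/
def ConS {V : Type} (G : SimpleGraph V) (T : ℕ) (W : Finset V) : Prop :=
  ∀ A B : Finset V, (∀ x, x ∈ A ∨ x ∈ B ↔ x ∈ W) →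
    (∀ x ∈ A, x ∉ B → ∀ y ∈ B, y ∉ A → ¬ G.Adj x y) →
    A = W ∨ B = W ∨ ∃ S : Finset V, (∀ x, x ∈ S ↔ x ∈ A ∧ x ∈ B) ∧ T < S.card

open scoped Classical in
/-- The number of ordered pairs of adjacent vertices of weight less than `θ`. -/
noncomputable def lt {V : Type} [Fintype V] (G : SimpleGraph V) (w : V → ℝ) (θ : ℝ) : ℕ :=
  ((univ ×ˢ univ : Finset (V × V)).filter (fun p => G.Adj p.1 p.2 ∧ w p.1 + w p.2 < θ)).card

open scoped Classical in
/-- The number of ordered pairs of adjacent vertices without an end in `H` and with at most one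
end in `M`. -/
noncomputable def uc {V : Type} [Fintype V] (G : SimpleGraph V) (H M : Finset V) : ℕ :=
  ((univ ×ˢ univ : Finset (V × V)).filter (fun p => G.Adj p.1 p.2 ∧ p.1 ∉ H ∧ p.2 ∉ H ∧
    ¬ (p.1 ∈ M ∧ p.2 ∈ M))).card

/-- A matching with `ν` edges in `S`. -/
structure Mt {V : Type} (G : SimpleGraph V) (S : Finset V) (ν : ℕ) (M : Fin ν → V × V) : Prop where
  l : ∀ i, (M i).1 ∈ S
  r : ∀ i, (M i).2 ∈ S
  adj : ∀ i, G.Adj (M i).1 (M i).2
  d1 : ∀ i j, i ≠ j → (M i).1 ≠ (M j).1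
  d2 : ∀ i j, i ≠ j → (M i).2 ≠ (M j).2
  d3 : ∀ i j, (M i).1 ≠ (M j).2

/-- The subsets of the vertex set which are not empty and not everything satisfy the bound. -/
def Bd {V : Type} [Fintype V] (G : SimpleGraph V) (k : ℕ) : Prop :=
  ∀ S : Finset V, S.Nonempty → (∃ v, v ∉ S) → ee G S S ≤ ff k S.card

/-- Every cycle in `S` has at most `2 * k + 1` vertices and spans a clique. -/
def Str {V : Type} (G : SimpleGraph V) (k : ℕ) (S : Finset V) : Prop :=
  ∀ (v : V) (c : G.Walk v v), c.IsCycle → (∀ x ∈ c.support, x ∈ S) →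
    c.length ≤ 2 * k + 1 ∧ ∀ x ∈ c.support, ∀ y ∈ c.support, x ≠ y → G.Adj x y

end Pool.Agent.H30.VX
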