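import Pool.Agent.H30.VX.Targets
import Pool.Agent.H48.CE.All

/-!
# MP_d32443_co, large `k`: the statement of the hand-in from T_FIN
-/

set_option autoImplicit false

namespace Pool.Agent.H30.VX

open Finset Pool.Agent.H48.CE Pool.Agent.H30.VR

theorem hand_of (hFIN : T_FIN) (hFFB : T_FFB) : ∃ k₀ : ℕ, ∀ k : ℕ, k₀ ≤ k → ∀ n : ℕ,
    ∀ G : SimpleGraph (Fin n),
      (¬ ∃ ℓ : ℕ, ∀ i < k, ∃ v : Fin n, ∃ c : G.Walk v v,
          c.IsCycle ∧ c.length = 2 * ℓ + 2 * i) →
      2 * G.edgeSet.ncard + ((n - 1) % (2 * k)) * (2 * k - (n - 1) % (2 * k)) ≤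
          (2 * k + 1) * (n - 1) ∧
      ((∀ H : SimpleGraph (Fin n),
          (¬ ∃ ℓ : ℕ, ∀ i < k, ∃ v : Fin n, ∃ c : H.Walk v v,
              c.IsCycle ∧ c.length = 2 * ℓ + 2 * i) →
          H.edgeSet.ncard ≤ G.edgeSet.ncard) ↔
        2 * G.edgeSet.ncard + ((n - 1) % (2 * k)) * (2 * k - (n - 1) % (2 * k)) =
          (2 * k + 1) * (n - 1)) ∧
      ((∀ H : SimpleGraph (Fin n),
          (¬ ∃ ℓ : ℕ, ∀ i < k, ∃ v : Fin n, ∃ c : H.Walk v v,
              c.IsCycle ∧ c.length = 2 * ℓ + 2 * i) →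
          H.edgeSet.ncard ≤ G.edgeSet.ncard) →
        ∀ v : Fin n, ∀ c : G.Walk v v, c.IsCycle →
          c.length ≤ 2 * k + 1 ∧
            ∀ x ∈ c.support, ∀ y ∈ c.support, x ≠ y → G.Adj x y) := by
  obtain ⟨k₀, h⟩ := hFIN
  refine ⟨max k₀ 1, ?_⟩
  intro k hk n G hG
  have hk0 : k₀ ≤ k := (le_max_left _ _).trans hk
  have hk1 : 1 ≤ k := (le_max_right _ _).trans hk
  rcases Nat.eq_zero_or_pos n with hn | hn
  · subst hn
    have h0 : ∀ H : SimpleGraph (Fin 0), H.edgeSet.ncard = 0 := by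
      intro H
      have : H.edgeSet = ∅ := by
        ext e
        induction e with
        | _ x y => exact x.elim0
      rw [this, Set.ncard_empty]
    refine ⟨by rw [h0]; simp, ⟨fun _ => by rw [h0]; simp, fun _ H _ => by rw [h0, h0]⟩,
      fun _ v => v.elim0⟩
  -- the bound for all graphs without a run
  have hbd : ∀ H : SimpleGraph (Fin n), ¬ HasRun k H →
      2 * H.edgeSet.ncard + ((n - 1) % (2 * k)) * (2 * k - (n - 1) % (2 * k)) ≤
          (2 * k + 1) * (n - 1) := by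
    intro H hH
    have h1 := (h k hk0 n H hn hH).1
    have h2 := (hFFB k n hk1 hn).1
    unfold rr at h2
    omega
  have hbd' : ∀ H : SimpleGraph (Fin n), ¬ HasRun k H →
      2 * H.edgeSet.ncard + ((n - 1) % (2 * k)) * (2 * k - (n - 1) % (2 * k)) =
          (2 * k + 1) * (n - 1) → Str H k univ := by
    intro H hH he
    refine (h k hk0 n H hn hH).2 ?_
    have h2 := (hFFB k n hk1 hn).1
    unfold rr at h2
    omega
  have hext : (∀ H : SimpleGraph (Fin n), ¬ HasRun k H → H.edgeSet.ncard ≤ G.edgeSet.ncard) ↔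
        2 * G.edgeSet.ncard + ((n - 1) % (2 * k)) * (2 * k - (n - 1) % (2 * k)) =
          (2 * k + 1) * (n - 1) := by
    constructor
    · intro hE
      exact le_antisymm (hbd G hG) (extremal_edges hk1 hE)
    · intro hE H hH
      have h1 := hbd H hH
      omega
  refine ⟨hbd G hG, hext, ?_⟩
  intro hE v c hc
  exact hbd' G hG (hext.1 hE) v c hc (fun x _ => mem_univ x)

end Pool.Agent.H30.VX
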