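import Pool.Agent.H30.VX.Basic
import Pool.Agent.H30.VR.Targets

/-!
# MP_d32443_co, large `k`: targets (board vex_modules, page H30_VEX.md)

Every row proves one of these statements, with other statements of this file (or closed theorems
of the board ver_modules) as hypotheses.
-/

set_option autoImplicit false

open Finset Pool.Agent.H48.CE Pool.Agent.H30.VR

namespace Pool.Agent.H30.VX

/-! ## F. Arithmetic of the extremal number -/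

/-- FFA: steps -/
def T_FFA : Prop := ∀ k m : ℕ, 1 ≤ k → 1 ≤ m →
  ff k m < ff k (m + 1) ∧ ff k (m + 1) ≤ ff k m + 4 * k ∧
    ff k (m + 2 * k) = ff k m + 2 * k * (2 * k + 1)

/-- FFB: closed form -/
def T_FFB : Prop := ∀ k m : ℕ, 1 ≤ k → 1 ≤ m →
  ff k m + rr k m * (2 * k - rr k m) = (2 * k + 1) * (m - 1) ∧ rr k m < 2 * k ∧
    (m ≤ 2 * k + 1 → ff k m = m * (m - 1))

/-- FFC: superadditivity with the defect -/
def T_FFC : Prop := ∀ k a b : ℕ, 1 ≤ k → 1 ≤ a → 1 ≤ b →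
  ff k (a + b - 1) = ff k a + ff k b +
    2 * min (rr k a * rr k b) ((2 * k - rr k a) * (2 * k - rr k b))

/-- FFD: lower bound -/
def T_FFD : Prop := ∀ k s : ℕ, 1 ≤ k → s * min (s + 1) k ≤ ff k (s + 1)

/-! ## N. Near-complete sets -/

/-- GRD: distinct representatives, greedily -/
def T_GRD : Prop := ∀ {V ι : Type} [Fintype ι] (S : ι → Finset V) (Z : Finset V),
  (∀ i, Z.card + Fintype.card ι ≤ (S i).card) →
  ∃ f : ι → V, Function.Injective f ∧ ∀ i, f i ∈ S i ∧ f i ∉ Z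

/-- NCP: paths of all lengths through a near-complete set -/
def T_NCP : Prop := ∀ {V : Type} (G : SimpleGraph V) (W : Finset V) (μ : ℕ) (x y : V),
  NC G μ W → x ∉ W → y ∉ W → x ≠ y → W.card ≤ (nb G W x).card + μ →
  W.card ≤ (nb G W y).card + μ → 4 * μ + 8 ≤ W.card →
  ∀ g : ℕ, 1 ≤ g → g ≤ W.card → ∃ F : List V, F.length = g ∧ Pt G x F y ∧ ∀ v ∈ F, v ∈ W

/-- NCC: cycles of all lengths in a near-complete set -/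
def T_NCC : Prop := ∀ {V : Type} (G : SimpleGraph V) (W : Finset V) (μ : ℕ), NC G μ W →
  4 * μ + 12 ≤ W.card → ∀ N : ℕ, 3 ≤ N → N ≤ W.card → Cy G N

/-- NCS: cycles through disjoint segments with ends in a near-complete set -/
def T_NCS : Prop := ∀ {V : Type} (G : SimpleGraph V) (W U : Finset V) (μ p : ℕ)
  (S : Fin p → List V), NC G μ W → U ⊆ W → 1 ≤ p →
  (∀ i, 2 ≤ (S i).length ∧ (S i).Nodup ∧ (S i).IsChain G.Adj ∧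
    (∃ x ∈ W, (S i).head? = some x) ∧ ∃ y ∈ W, (S i).getLast? = some y) →
  (∀ i j, i ≠ j → ∀ v ∈ S i, v ∉ S j) → (∀ i, ∀ v ∈ S i, v ∉ U) →
  4 * μ + 8 + 2 * p ≤ U.card → ∀ g : ℕ, p ≤ g → g ≤ U.card →
  Cy G (∑ i, (S i).length + g)

/-- EXT: cycles through a near-complete set `W`, further vertices with many neighbours in `W`, and
disjoint segments -/
def T_EXT : Prop := ∀ {V : Type} (G : SimpleGraph V) (W L : Finset V) (μ b p : ℕ)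
  (x y : Fin p → V) (l : Fin p → List V), NC G μ W →
  (∀ v ∈ L, v ∉ W ∧ b ≤ (nb G W v).card) →
  (∀ i, (x i ∈ W ∨ x i ∈ L) ∧ (y i ∈ W ∨ y i ∈ L) ∧ Pt G (x i) (l i) (y i) ∧
    ∀ v ∈ l i, v ∉ W ∧ v ∉ L) →
  (∀ i j, i ≠ j → ∀ v ∈ x i :: (l i ++ [y i]), v ∉ x j :: (l j ++ [y j])) →
  2 * p + 2 * L.card ≤ b → 4 * μ + 12 + 8 * p + 8 * L.card ≤ W.card →
  ∑ i, (l i).length + 3 * p + 4 * L.card ≤ W.card →
  ∀ N : ℕ, 3 ≤ N → N ≤ W.card + L.card + ∑ i, (l i).length → Cy G N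

/-- EAR: a path outside `S` with two different ends in `S` -/
def T_EAR : Prop := ∀ {V : Type} [Fintype V] (G : SimpleGraph V) (S : Finset V), Con G 1 →
  2 ≤ S.card → (∃ v, v ∉ S) →
  ∃ x ∈ S, ∃ y ∈ S, ∃ l : List V, l ≠ [] ∧ Pt G x l y ∧ ∀ v ∈ l, v ∉ S

/-! ## II. No core of type II -/

/-- T2A: at most `2 k + 1` vertices have many neighbours in the core. -/
def T_T2A : Prop := ∀ {V : Type} (G : SimpleGraph V) (W L : Finset V) (k e b : ℕ),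
  NC G e W → 2 * k ≤ W.card + e → 2000 * e ≤ k → 100000 ≤ k → k ≤ 100 * b →
  (∀ v ∈ L, v ∉ W ∧ b ≤ (nb G W v).card) → 2 * k + 2 ≤ W.card + L.card → HasRun k G

/-- T2B: counting, `n` is close to `2 k`. -/
def T_T2B : Prop := ∀ {V : Type} [Fintype V] (G : SimpleGraph V) (W L R : Finset V)
  (k e b : ℕ), (∀ v, v ∈ W ∨ v ∈ L ∨ v ∈ R) → (∀ v ∈ W, v ∉ L ∧ v ∉ R) → (∀ v ∈ L, v ∉ R) →
  2 * k ≤ W.card + e → W.card + L.card ≤ 2 * k + 1 → 2000 * e ≤ k → 100000 ≤ k →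
  100 * b ≤ k + 100 → (∀ v ∈ R, (nb G W v).card < b) → 50 * ee G R R ≤ k * R.card →
  ff k (Fintype.card V) ≤ ee G univ univ → 2 * k + 2 ≤ Fintype.card V →
  20 * (Fintype.card V - 2 * k - 1) ≤ k

/-- T2C: `a = 0`, the rest is small: a run -/
def T_T2C : Prop := ∀ {V : Type} [Fintype V] (G : SimpleGraph V) (W L R : Finset V)
  (k e b : ℕ), Con G 1 → NC G e W → (∀ v, v ∈ W ∨ v ∈ L ∨ v ∈ R) → (∀ v ∈ R, v ∉ W ∧ v ∉ L) →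
  (∀ v ∈ L, v ∉ W ∧ b ≤ (nb G W v).card) → 2 * k ≤ W.card + e → W.card + L.card = 2 * k + 1 →
  2000 * e ≤ k → 100000 ≤ k → k ≤ 100 * b → R.Nonempty → 10 * R.card ≤ k → HasRun k G

/-- T2D: counting, many vertices of `R` have neighbours in the core. -/
def T_T2D : Prop := ∀ {V : Type} [Fintype V] (G : SimpleGraph V) (W L R : Finset V)
  (k e b a : ℕ), (∀ v, v ∈ W ∨ v ∈ L ∨ v ∈ R) → (∀ v ∈ W, v ∉ L ∧ v ∉ R) → (∀ v ∈ L, v ∉ R) →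
  2 * k ≤ W.card + e → W.card + L.card + a = 2 * k + 1 → 1 ≤ a → 2000 * e ≤ k → 100000 ≤ k →
  100 * b ≤ k + 100 → (∀ v ∈ R, (nb G W v).card < b) →
  ff k (Fintype.card V) ≤ ee G univ univ → 2 * k + 2 ≤ Fintype.card V →
  20 * (Fintype.card V - 2 * k - 1) ≤ k →
  ∃ R₀ ⊆ R, R₀.card = a + 1 ∧ ∀ v ∈ R₀, 3 * (a + 1) ≤ (nb G W v).card + (nb G L v).card

/-- T2E: the segments from T2D give a run. -/
def T_T2E : Prop := ∀ {V : Type} [Fintype V] (G : SimpleGraph V) (W L R₀ : Finset V)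
  (k e b a : ℕ), NC G e W → (∀ v ∈ L, v ∉ W ∧ b ≤ (nb G W v).card) →
  (∀ v ∈ R₀, v ∉ W ∧ v ∉ L) → 2 * k ≤ W.card + e → W.card + L.card + a = 2 * k + 1 → 1 ≤ a →
  2000 * e ≤ k → 100000 ≤ k → k ≤ 100 * b → R₀.card = a + 1 →
  (∀ v ∈ R₀, 3 * (a + 1) ≤ (nb G W v).card + (nb G L v).card) → HasRun k G

/-- TH2: no core of type II -/
def T_TH2 : Prop := ∃ (ε : ℝ) (k₀ : ℕ), 0 < ε ∧ ∀ k : ℕ, k₀ ≤ k → ∀ {V : Type} [Fintype V]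
  (G : SimpleGraph V) (W : Finset V), Con G 1 → 2 * k + 2 ≤ Fintype.card V → C2 G ε k W →
  ff k (Fintype.card V) ≤ ee G univ univ → HasRun k G

/-! ## L. Linking -/

/-- GPR: a lower regular pair in every dense set -/
def T_GPR : Prop := ∃ (d γ : ℝ) (r k₀ : ℕ), 0 < d ∧ d ≤ 1 ∧ 0 < γ ∧ 40 / d ≤ r ∧ 40 ≤ r ∧
  ∀ k : ℕ, k₀ ≤ k → ∀ {V : Type} [Fintype V] (G : SimpleGraph V) (R : Finset V),
    ¬ HasRun k G → R.Nonempty → k * R.card ≤ 50 * ee G R R →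
    ∃ (A B : Finset V) (t : ℕ), A ⊆ R ∧ B ⊆ R ∧ LP G d r t A B ∧ γ * k ≤ t ∧
      100 * (r * t) ≤ k

/-- MNL: Menger's theorem, local form -/
def T_MNL : Prop := ∀ {V ι : Type} [Fintype V] [Fintype ι] (G : SimpleGraph V) (a : ι → V)
  (Y : Finset V), Function.Injective a → 1 ≤ Fintype.card ι →
  (∃ Q : ι → List V, PS G a Y Q) ∨
    ∃ P R : Finset V, Sp G (Fintype.card ι - 1) P R ∧ (∀ i, a i ∈ P) ∧ Y ⊆ R

/-- MN2: a path of a shortest system meets `Y` in its last vertex only. -/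
def T_MN2 : Prop := ∀ {V ι : Type} [Fintype ι] (G : SimpleGraph V) (a : ι → V) (Y : Finset V)
  (Q : ι → List V), MPS G a Y Q → ∀ i, ∀ v ∈ Q i, v ∈ Y → (Q i).getLast? = some v

/-- CMB: two paths of a system and a path between their starts -/
def T_CMB : Prop := ∀ {V ι : Type} (G : SimpleGraph V) (a : ι → V) (Y : Finset V)
  (Q : ι → List V), PS G a Y Q → ∀ (i j : ι) (l : List V) (y y' : V), i ≠ j →
  Pt G (a i) l (a j) → (∀ v ∈ l, ∀ i', v ∉ Q i') → (Q i).getLast? = some y →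
  (Q j).getLast? = some y' →
  ∃ L : List V, L.length + 2 = (Q i).length + l.length + (Q j).length ∧ Pt G y L y' ∧
    ∀ v ∈ L, v ∈ Q i ∨ v ∈ Q j ∨ v ∈ l

/-- L2: a core of type II and a lower regular pair give a run. -/
def T_L2 : Prop := ∀ {V : Type} [Fintype V] (G : SimpleGraph V) (W A B : Finset V) (d : ℝ)
  (r t k μ : ℕ), Con G 1 → NC G μ W → LP G d r t A B → (∀ v ∈ W, v ∉ A ∧ v ∉ B) → 0 < d →
  d ≤ 1 → 2 ≤ t → (20 : ℝ) ≤ d * r → (12 * (r + 1) : ℝ) < d * t → 6 * (1 / d + 3) ≤ t →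
  4 * μ + 12 ≤ W.card → 2 * k + 4 + 40 * t ≤ W.card + 2 * (r * t) → HasRun k G

open scoped Classical in
/-- L3B: a shortest system to the hubs meets `B` in few vertices. -/
def T_L3B : Prop := ∀ {V : Type} [Fintype V] (G : SimpleGraph V) (H B : Finset V)
  (a : Fin 3 → V) (Q : Fin 3 → List V), MPS G a H Q → (∀ v ∈ H, v ∉ B) →
  (B.filter (fun v => ∃ i, v ∈ Q i)).card ≤
    (B.filter (fun v => (nb G H v).card ≤ 3)).card + 3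

open scoped Classical in
/-- L3C: few vertices of `B` have at most 3 neighbours in `H`. -/
def T_L3C : Prop := ∀ {V : Type} (G : SimpleGraph V) (H B : Finset V) (ε : ℝ) (k : ℕ),
  C1 G ε k H B → ε ≤ 1 / 2000 → 100 ≤ k →
  ((B.filter (fun v => (nb G H v).card ≤ 3)).card : ℝ) ≤ B.card / 500

open scoped Classical in
/-- L3D: paths between two hubs of all even lengths `2, 4, .., 2 |H| - 2` avoiding few vertices -/
def T_L3D : Prop := ∀ {V : Type} (G : SimpleGraph V) (H B Z : Finset V) (ε : ℝ) (k : ℕ)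
  (y y' : V), C1 G ε k H B → ε ≤ 1 / 2000 → 1000 ≤ k → H.card ≤ k → y ∈ H → y' ∈ H → y ≠ y' →
  (∀ v ∈ Z, v ∉ H) → ((B.filter (fun v => v ∈ Z)).card : ℝ) ≤ B.card / 500 + k / 40 →
  ∀ s : ℕ, 1 ≤ s → s + 1 ≤ H.card →
  ∃ l : List V, l.length + 1 = 2 * s ∧ Pt G y l y' ∧ ∀ v ∈ l, (v ∈ H ∨ v ∈ B) ∧ v ∉ Z

open scoped Classical in
/-- L3: a core of type I and a lower regular pair which are not separated by 2 vertices give a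
run. -/
def T_L3 : Prop := ∀ {V : Type} [Fintype V] (G : SimpleGraph V) (H B A A' : Finset V) (d ε : ℝ)
  (r t k : ℕ), C1 G ε k H B → ε ≤ 1 / 2000 → 1000 ≤ k → H.card ≤ k → LP G d r t A A' →
  (∀ v ∈ H, v ∉ A ∧ v ∉ A') → 0 < d → d ≤ 1 → 2 ≤ t → (20 : ℝ) ≤ d * r →
  (18 * (r + 1) : ℝ) < d * t → 9 * (1 / d + 3) ≤ t → 100 * (r * t) ≤ k →
  k + 1 + 20 * t ≤ H.card + r * t →
  (∀ P Q : Finset V, Sp G 2 P Q → (A.filter (fun v => v ∉ P)).card < t →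
    (A'.filter (fun v => v ∉ P)).card < t → H ⊆ Q → False) → HasRun k G

/-! ## H. The hub lemma -/

open scoped Classical in
/-- ALT: alternating paths through given hubs -/
def T_ALT : Prop := ∀ {V : Type} (G : SimpleGraph V) (B Z : Finset V) (x y : V) (hs : List V)
  (c : ℕ), (x :: (hs ++ [y])).Nodup → (∀ h ∈ x :: (hs ++ [y]), h ∈ B → h ∈ Z) →
  (∀ h ∈ x :: (hs ++ [y]), ∀ h' ∈ x :: (hs ++ [y]), h ≠ h' →
    c ≤ ((cn G B h h').filter (fun v => v ∉ Z)).card) → hs.length + 1 ≤ c →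
  ∃ l : List V, l.length = 2 * hs.length + 1 ∧ Pt G x l y ∧ ∀ v ∈ l, v ∈ hs ∨ (v ∈ B ∧ v ∉ Z)

open scoped Classical in
/-- SEG: cycles through disjoint segments with private hubs, and `z` further hubs -/
def T_SEG : Prop := ∀ {V : Type} (G : SimpleGraph V) (H B : Finset V) (p z c : ℕ)
  (σ : Fin p → List V) (h h' : Fin p → V), (∀ i, h i ∈ H ∧ h' i ∈ H) → (∀ i j, h i ≠ h' j) →
  Function.Injective h → Function.Injective h' →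
  (∀ i, σ i ≠ [] ∧ (σ i).Nodup ∧ (σ i).IsChain G.Adj) →
  (∀ i j, i ≠ j → ∀ v ∈ σ i, v ∉ σ j) → (∀ i, ∀ v ∈ σ i, v ∉ H) →
  (∀ i, ∀ x ∈ (σ i).head?, G.Adj (h i) x) → (∀ i, ∀ y ∈ (σ i).getLast?, G.Adj y (h' i)) →
  (∀ u ∈ H, ∀ v ∈ H, u ≠ v →
    c ≤ ((cn G B u v).filter (fun w => w ∉ H ∧ ∀ i, w ∉ σ i)).card) →
  2 * p + z ≤ H.card → p + z ≤ c → (1 ≤ p ∨ 2 ≤ z) →
  Cy G (∑ i, (σ i).length + 3 * p + 2 * z)

open scoped Classical in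
/-- HK: `k + 1` hubs give a run. -/
def T_HK : Prop := ∀ {V : Type} (G : SimpleGraph V) (H B : Finset V) (k : ℕ), 1 ≤ k →
  H.card = k + 1 → (∀ u ∈ H, ∀ v ∈ H, u ≠ v →
    k + 1 ≤ ((cn G B u v).filter (fun w => w ∉ H)).card) → HasRun k G

open scoped Classical in
/-- EXC: `k - j` hubs, vertices in `X` with many neighbours in `Bs`, and a matching in `Bs`, with
total excess `2 (j + 1)`, give a run. -/
def T_EXC : Prop := ∀ {V : Type} (G : SimpleGraph V) (H B Bs X : Finset V) (k j : ℕ)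
  (M : Fin (2 * (j + 1 - X.card)) → V × V), H.card + j = k → X.card ≤ j + 1 →
  (∀ v ∈ X, v ∉ H ∧ 8 * (j + 1) ≤ (nb G Bs v).card) →
  (∀ v ∈ Bs, v ∉ H ∧ 4 * (j + 1) ≤ (nb G H v).card) →
  Mt G (Bs.filter (fun v => v ∉ X)) (2 * (j + 1 - X.card)) M →
  (∀ u ∈ H, ∀ v ∈ H, u ≠ v →
    k + 4 * (j + 1) ≤ ((cn G B u v).filter (fun w => w ∉ H)).card) →
  4 * (j + 1) ≤ H.card → HasRun k G

/-- VCM: a matching or few edges -/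
def T_VCM : Prop := ∀ {V : Type} (G : SimpleGraph V) (S : Finset V) (ν D : ℕ),
  (∀ v ∈ S, (nb G S v).card ≤ D) → (∃ M, Mt G S ν M) ∨ ee G S S ≤ 4 * ν * D

open scoped Classical in
/-- HBC: counting. `Hs` hubs, `Xh` vertices with many neighbours in `Bs`, `R` the rest of `X`. -/
def T_HBC : Prop := ∀ {V : Type} (G : SimpleGraph V) (X Hs Xh Bs R : Finset V) (k j : ℕ),
  Hs ⊆ X → Xh ⊆ X → Bs ⊆ X → (∀ v ∈ Hs, v ∉ Xh ∧ v ∉ Bs) →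
  (∀ v, v ∈ R ↔ v ∈ X ∧ v ∉ Hs ∧ v ∉ Xh ∧ v ∉ Bs) → Hs.card + j = k → Xh.card ≤ j →
  ee G (Bs.filter (fun v => v ∉ Xh)) (Bs.filter (fun v => v ∉ Xh)) ≤
    64 * (j - Xh.card + 1) * (j + 1) →
  (∀ v ∈ R, 4 * (nb G Hs v).card ≤ 3 * Hs.card ∧ (nb G Bs v).card ≤ 8 * (j + 1)) →
  2000 * j ≤ k → 10000 ≤ k → 23 * k ≤ 10 * X.card →
  (ff k X.card : ℤ) ≤ ee G X X + k + ((k : ℤ) - rr k X.card) ^ 2 →
  R.Nonempty ∧ k * R.card ≤ 50 * ee G R R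

/-- HUB: the hub lemma -/
def T_HUB : Prop := ∃ k₀ : ℕ, ∀ k : ℕ, k₀ ≤ k → ∀ {V : Type} [Fintype V] (G : SimpleGraph V)
  (X H B : Finset V) (ε : ℝ), ε ≤ 1 / 2000 → ¬ HasRun k G → H ⊆ X → B ⊆ X → C1 G ε k H B →
  (ff k X.card : ℤ) ≤ ee G X X + k + ((k : ℤ) - rr k X.card) ^ 2 →
  H.card ≤ k ∧ ∃ R ⊆ X, R.Nonempty ∧ (∀ v ∈ R, v ∉ H) ∧ k * R.card ≤ 50 * ee G R R

/-! ## O. Objects and leaves -/

/-- OBH: the hubs of a core of type I are on one side of every separation of order 2. -/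
def T_OBH : Prop := ∀ {V : Type} (G : SimpleGraph V) (H B : Finset V) (ε : ℝ) (k : ℕ),
  C1 G ε k H B → ε ≤ 1 / 10 → 10 ≤ k → ∀ P Q : Finset V, Sp G 2 P Q → H ⊆ P ∨ H ⊆ Q

open scoped Classical in
/-- OBP: a lower regular pair is on one side of every separation of order 2. -/
def T_OBP : Prop := ∀ {V : Type} (G : SimpleGraph V) (A B : Finset V) (d : ℝ) (r t : ℕ),
  LP G d r t A B → 0 < d → 1 ≤ t → 4 ≤ r → ∀ P Q : Finset V, Sp G 2 P Q →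
  ((A.filter (fun v => v ∉ P)).card < t ∧ (B.filter (fun v => v ∉ P)).card < t) ∨
    ((A.filter (fun v => v ∉ Q)).card < t ∧ (B.filter (fun v => v ∉ Q)).card < t)

/-- LFX: a leaf. A side of least size is a leaf (uncrossing). -/
def T_LFX : Prop := ∀ {V : Type} [Fintype V] (G : SimpleGraph V) (c : ℕ) (Y₀ P Q : Finset V),
  Con G 1 → 16 ≤ c → Sp G 2 P Q → P ⊆ Y₀ → (∃ Z, Ob G c Z ∧ Lv Z P) → (∃ Z, Ob G c Z ∧ Lv Z Q) →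
  ∃ X Y : Finset V, Sp G 2 X Y ∧ X ⊆ Y₀ ∧ (∃ Z, Ob G c Z ∧ Lv Z X) ∧ (∃ Z, Ob G c Z ∧ Lv Z Y) ∧
    Leaf G c X

open scoped Classical in
/-- TWL: two leaves -/
def T_TWL : Prop := ∀ {V : Type} [Fintype V] (G : SimpleGraph V) (c : ℕ) (P Q : Finset V),
  Con G 1 → 16 ≤ c → Sp G 2 P Q → (∃ Z, Ob G c Z ∧ Lv Z P) → (∃ Z, Ob G c Z ∧ Lv Z Q) →
  ∃ X₁ Y₁ X₂ Y₂ : Finset V, Sp G 2 X₁ Y₁ ∧ Sp G 2 X₂ Y₂ ∧ X₂ ⊆ Y₁ ∧ Leaf G c X₁ ∧ Leaf G c X₂ ∧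
    (X₁.filter (fun v => v ∈ Y₁)).card = 2 ∧ (X₂.filter (fun v => v ∈ Y₂)).card = 2 ∧
    (∃ v, v ∉ X₁) ∧ (∃ v, v ∉ X₂) ∧ 3 * c ≤ 4 * X₁.card ∧ 3 * c ≤ 4 * X₂.card

open scoped Classical in
/-- LVC: counting with two leaves -/
def T_LVC : Prop := ∀ {V : Type} [Fintype V] (G : SimpleGraph V) (k : ℕ)
  (X₁ Y₁ X₂ Y₂ : Finset V), 1 ≤ k → Bd G k → ff k (Fintype.card V) ≤ ee G univ univ →
  Sp G 2 X₁ Y₁ → Sp G 2 X₂ Y₂ → X₂ ⊆ Y₁ → (X₁.filter (fun v => v ∈ Y₁)).card = 2 →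
  (X₂.filter (fun v => v ∈ Y₂)).card = 2 → (∃ v, v ∉ X₁) → (∃ v, v ∉ X₂) → 3 ≤ X₁.card →
  3 ≤ X₂.card →
  min (rr k (X₁.card - 1) * rr k (X₂.card - 1))
      ((2 * k - rr k (X₁.card - 1)) * (2 * k - rr k (X₂.card - 1))) ≤ 4 * k ∧
    ff k X₁.card ≤ ee G X₁ X₁ + 8 * k ∧ ff k X₂.card ≤ ee G X₂ X₂ + 8 * k

/-! ## S. Stability -/

/-- WG2: many light pairs give two sets without heavy pairs. -/
def T_WG2 : Prop := ∀ {V : Type} [Fintype V] (G : SimpleGraph V) (ε k : ℝ) (w : V → ℝ),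
  0 < ε → ε ≤ 1 → 0 < k → 0 < Fintype.card V → (∀ v, 0 ≤ w v) →
  ε * k * Fintype.card V ≤ lt G w (1 - ε) →
  ∃ X Y : Finset V, (∀ v ∈ X, v ∉ Y) ∧ ε ^ 3 / 100 * k * Fintype.card V < ee G X Y ∧
    ∀ x ∈ X, ∀ y ∈ Y, w x + w y < 1

/-- ST2: many light pairs give a lower regular pair of small weight. -/
def T_ST2 : Prop := ∀ ε : ℝ, 0 < ε → ε ≤ 1 → ∃ d : ℝ, 0 < d ∧ d ≤ 1 ∧ ∀ r : ℕ, 2 ≤ r →
  ∃ (γ : ℝ) (k₀ : ℕ), 0 < γ ∧ ∀ k : ℕ, k₀ ≤ k → ∀ {V : Type} [Fintype V] (G : SimpleGraph V),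
    ¬ HasRun k G → 0 < Fintype.card V → ∀ w : V → ℝ, (∀ v, 0 ≤ w v) →
    ε * k * Fintype.card V ≤ lt G w (1 - ε) →
    ∃ (A B : Finset V) (t : ℕ), (∀ v ∈ A, v ∉ B) ∧ A.card = r * t ∧ B.card = r * t ∧
      γ * k ≤ t ∧ (A.card : ℝ) ≤ ε / 100 * k ∧ LR G d t A B ∧
      ∑ v ∈ A, w v + ∑ v ∈ B, w v ≤ A.card

/-- BL2: packing, if all small weights leave many light pairs -/
def T_BL2 : Prop := ∀ ε : ℝ, 0 < ε → ε ≤ 1 → ∃ d : ℝ, 0 < d ∧ d ≤ 1 ∧ ∀ b : ℕ, 1 ≤ b →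
  ∃ (r T₀ k₀ : ℕ) (γ : ℝ), 0 < γ ∧ ∀ k : ℕ, k₀ ≤ k → ∀ {V : Type} [Fintype V]
    (G : SimpleGraph V), ¬ HasRun k G → 0 < Fintype.card V →
    (∀ w : V → ℝ, (∀ v, 0 ≤ w v) → ∑ v, w v ≤ (1 + ε / 4) * k →
      ε * k * Fintype.card V ≤ lt G w (1 - ε)) →
    ∃ (T : ℕ) (A B : Fin T → Finset V) (t : Fin T → ℕ), T ≤ T₀ ∧
      (∀ i, (∀ v ∈ A i, v ∉ B i) ∧ (A i).card = (B i).card ∧ b * t i ≤ (A i).card ∧
        (A i).card ≤ r * t i ∧ γ * k ≤ t i ∧ ((A i).card : ℝ) ≤ ε / 100 * k ∧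
        LR G d (t i) (A i) (B i)) ∧
      (∀ i j, i ≠ j → ∀ v, (v ∈ A i ∨ v ∈ B i) → v ∉ A j ∧ v ∉ B j) ∧
      (1 + ε / 8) * k ≤ ∑ i, ((A i).card : ℝ)

/-- PCK: in a highly connected graph a packing of total size `(1 + ε / 8) k` gives a run. -/
def T_PCK : Prop := ∀ (ε d γ : ℝ) (b r T₀ : ℕ), 0 < ε → ε ≤ 1 → 0 < d → d ≤ 1 → 0 < γ →
  1 ≤ b → 800 / ε ≤ b → 20 / d ≤ b → ∃ k₀ : ℕ, ∀ k : ℕ, k₀ ≤ k → ∀ {V : Type} [Fintype V]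
    (G : SimpleGraph V), Con G (2 * T₀) →
    (∃ (T : ℕ) (A B : Fin T → Finset V) (t : Fin T → ℕ), T ≤ T₀ ∧
      (∀ i, (∀ v ∈ A i, v ∉ B i) ∧ (A i).card = (B i).card ∧ b * t i ≤ (A i).card ∧
        (A i).card ≤ r * t i ∧ γ * k ≤ t i ∧ ((A i).card : ℝ) ≤ ε / 100 * k ∧
        LR G d (t i) (A i) (B i)) ∧
      (∀ i j, i ≠ j → ∀ v, (v ∈ A i ∨ v ∈ B i) → v ∉ A j ∧ v ∉ B j) ∧
      (1 + ε / 8) * k ≤ ∑ i, ((A i).card : ℝ)) → HasRun k G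

/-- DIC: weights with few light pairs -/
def T_DIC : Prop := ∀ ε : ℝ, 0 < ε → ε ≤ 1 → ∃ T k₀ : ℕ, ∀ k : ℕ, k₀ ≤ k → ∀ {V : Type}
  [Fintype V] (G : SimpleGraph V), 0 < Fintype.card V → Con G T → ¬ HasRun k G →
  ∃ w : V → ℝ, (∀ v, 0 ≤ w v) ∧ ∑ v, w v ≤ (1 + ε) * k ∧
    (lt G w (1 - ε) : ℝ) ≤ ε * k * Fintype.card V

/-- RND: rounding at a random threshold -/
def T_RND : Prop := ∀ {V : Type} [Fintype V] (w : V → ℝ) (ε K : ℝ), 0 < ε → ε ≤ 1 / 2 → 0 ≤ K →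
  (∀ v, 0 ≤ w v) → ∑ v, w v ≤ K →
  ∃ H M : Finset V, (∀ v ∈ H, v ∉ M) ∧ (H.card : ℝ) + M.card / 2 ≤ (1 + 6 * ε) * K ∧
    ∀ u v, 1 - ε ≤ w u + w v → u ∈ H ∨ v ∈ H ∨ (u ∈ M ∧ v ∈ M)

/-- COV: a half-integral cover of almost all edges -/
def T_COV : Prop := ∀ ε : ℝ, 0 < ε → ε ≤ 1 → ∃ T k₀ : ℕ, ∀ k : ℕ, k₀ ≤ k → ∀ {V : Type}
  [Fintype V] (G : SimpleGraph V), 0 < Fintype.card V → Con G T → ¬ HasRun k G →
  ∃ H M : Finset V, (∀ v ∈ H, v ∉ M) ∧ (H.card : ℝ) + M.card / 2 ≤ (1 + ε) * k ∧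
    (uc G H M : ℝ) ≤ ε * k * Fintype.card V

/-- QUA: the quadratic inequality -/
def T_QUA : Prop := ∀ ε : ℝ, 0 < ε → ε ≤ 1 / 100 → ∃ (ε₀ : ℝ) (k₀ : ℕ), 0 < ε₀ ∧
  ∀ k : ℕ, k₀ ≤ k → ∀ m h M : ℕ, (2 - ε₀) * k ≤ m → (h : ℝ) + M / 2 ≤ (1 + ε₀) * k →
  h + M ≤ m → (ff k m : ℝ) ≤ h * h + 2 * h * (m - h) + M * M + ε₀ * k * m →
  ((1 - ε) * k ≤ h ∧ (49 / 20 : ℝ) * k ≤ m) ∨ ((h : ℝ) ≤ ε * k ∧ (m : ℝ) ≤ (2 + ε) * k)

/-- CT1: extraction of a core of type I -/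
def T_CT1 : Prop := ∀ ε : ℝ, 0 < ε → ε ≤ 1 / 100 → ∃ (ε₀ : ℝ) (k₀ : ℕ), 0 < ε₀ ∧
  ∀ k : ℕ, k₀ ≤ k → ∀ {V : Type} [Fintype V] (G : SimpleGraph V) (H M : Finset V),
  (∀ v ∈ H, v ∉ M) → (1 - ε₀) * k ≤ H.card → (H.card : ℝ) + M.card / 2 ≤ (1 + ε₀) * k →
  (49 / 20 : ℝ) * k ≤ Fintype.card V →
  (ff k (Fintype.card V) : ℝ) ≤ ee G univ univ + ε₀ * k * Fintype.card V →
  (uc G H M : ℝ) ≤ ε₀ * k * Fintype.card V → ∃ H₀ B₀ : Finset V, C1 G ε k H₀ B₀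

/-- CT2: extraction of a core of type II -/
def T_CT2 : Prop := ∀ ε : ℝ, 0 < ε → ε ≤ 1 / 100 → ∃ (ε₀ : ℝ) (k₀ : ℕ), 0 < ε₀ ∧
  ∀ k : ℕ, k₀ ≤ k → ∀ {V : Type} [Fintype V] (G : SimpleGraph V),
  (2 - ε₀) * k ≤ Fintype.card V → (Fintype.card V : ℝ) ≤ (2 + ε₀) * k →
  (ff k (Fintype.card V) : ℝ) ≤ ee G univ univ + ε₀ * k * Fintype.card V →
  ∃ W : Finset V, C2 G ε k W

/-- SHP: cores in highly connected graphs -/
def T_SHP : Prop := ∀ ε : ℝ, 0 < ε → ε ≤ 1 / 100 → ∃ (ε₀ : ℝ) (T k₀ : ℕ), 0 < ε₀ ∧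
  ∀ k : ℕ, k₀ ≤ k → ∀ {V : Type} [Fintype V] (G : SimpleGraph V), Con G T → ¬ HasRun k G →
  (2 - ε₀) * k ≤ Fintype.card V →
  (ff k (Fintype.card V) : ℝ) ≤ ee G univ univ + ε₀ * k * Fintype.card V →
  (∃ H B : Finset V, C1 G ε k H B) ∨ ∃ W : Finset V, C2 G ε k W

/-- REC: reduction to highly connected subgraphs, small graphs -/
def T_REC : Prop := ∀ (ε₀ C : ℝ) (T : ℕ), 0 < ε₀ → 0 < C → ∃ (ε₂ : ℝ) (k₀ : ℕ), 0 < ε₂ ∧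
  ∀ k : ℕ, k₀ ≤ k → ∀ {V : Type} [Fintype V] (G : SimpleGraph V),
  (2 - ε₂) * k ≤ Fintype.card V → (Fintype.card V : ℝ) ≤ C * k → Bd G k →
  (ff k (Fintype.card V) : ℝ) ≤ ee G univ univ + ε₂ * k ^ 2 →
  ∃ X : Finset V, (2 - ε₀) * k ≤ X.card ∧ (ff k X.card : ℝ) ≤ ee G X X + ε₀ * k ^ 2 ∧
    (X.card ≤ 2 * k + 1 ∨ ConS G T X)

/-- MDU: reduction to highly connected subgraphs, large graphs -/
def T_MDU : Prop := ∀ (ε₀ : ℝ) (T : ℕ), 0 < ε₀ → ∃ (C : ℝ) (k₀ : ℕ), 0 < C ∧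
  ∀ k : ℕ, k₀ ≤ k → ∀ {V : Type} [Fintype V] (G : SimpleGraph V),
  C * k ≤ Fintype.card V → ff k (Fintype.card V) ≤ ee G univ univ + 8 * k →
  ∃ X : Finset V, (2 - ε₀) * k ≤ X.card ∧ (ff k X.card : ℝ) ≤ ee G X X + ε₀ * k * X.card ∧
    ConS G T X

/-- STB: stability -/
def T_STB : Prop := ∀ ε : ℝ, 0 < ε → ε ≤ 1 / 100 → ∃ (ε₀ : ℝ) (k₀ : ℕ), 0 < ε₀ ∧
  ∀ k : ℕ, k₀ ≤ k → ∀ {V : Type} [Fintype V] (G : SimpleGraph V), ¬ HasRun k G →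
  (2 - ε₀) * k ≤ Fintype.card V → Bd G k → ff k (Fintype.card V) ≤ ee G univ univ + 8 * k →
  (∃ H B : Finset V, C1 G ε k H B) ∨ ∃ W : Finset V, C2 G ε k W

/-! ## Z. Conclusion -/

/-- COR: the core theorem -/
def T_COR : Prop := ∃ k₀ : ℕ, ∀ k : ℕ, k₀ ≤ k → ∀ {V : Type} [Fintype V] (G : SimpleGraph V),
  Con G 1 → 2 * k + 2 ≤ Fintype.card V → ¬ HasRun k G → Bd G k →
  ee G univ univ < ff k (Fintype.card V)

/-- TCC: no separation by one vertex -/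
def T_TCC : Prop := ∀ {V : Type} (G : SimpleGraph V) (S : Finset V), TC G S → Con (rs G S) 1

/-- RED: reduction to 2-connected graphs -/
def T_RED : Prop := ∀ k : ℕ, 1 ≤ k →
  (∀ {V : Type} [Fintype V] (G : SimpleGraph V), Con G 1 → 2 * k + 2 ≤ Fintype.card V →
    ¬ HasRun k G → Bd G k → ee G univ univ < ff k (Fintype.card V)) →
  ∀ {V : Type} (G : SimpleGraph V), ¬ HasRun k G → ∀ S : Finset V, S.Nonempty →
    ee G S S ≤ ff k S.card ∧ (ee G S S = ff k S.card → Str G k S)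

/-- FIN: the theorem -/
def T_FIN : Prop := ∃ k₀ : ℕ, ∀ k : ℕ, k₀ ≤ k → ∀ n : ℕ, ∀ G : SimpleGraph (Fin n),
  1 ≤ n → ¬ HasRun k G → 2 * G.edgeSet.ncard ≤ ff k n ∧
    (2 * G.edgeSet.ncard = ff k n → Str G k univ)

end Pool.Agent.H30.VX
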